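import Pool.Agent.R37.SepExp

namespace Pool.Agent.Results.MP_2f3b43_co.ExponentOne

open SimpleGraph Pool.Agent.R37.SepExp Filter

/-- A class of graphs, as a predicate on graphs (only finite graphs matter below). -/
abbrev GraphClass := (V : Type) → SimpleGraph V → Prop

/-- The class is closed under isomorphism and under taking subgraphs. -/
def Monotone (C : GraphClass) : Prop :=
  ∀ (V W : Type) [Finite V] [Finite W] (G : SimpleGraph V) (H : SimpleGraph W), C V G →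
    (∃ f : W → V, Function.Injective f ∧ ∀ x y, H.Adj x y → G.Adj (f x) (f y)) → C W H

/-- Every `n`-vertex graph in the class has a balanced separator of order `O(n ^ (1 - δ))`. -/
def HasSeparators (C : GraphClass) (δ : ℝ) : Prop :=
  ∃ K : ℝ, ∀ (V : Type) [Finite V] (G : SimpleGraph V), C V G →
    ∃ S : Set V, IsBalancedSeparator G S ∧ (S.ncard : ℝ) ≤ K * (Nat.card V : ℝ) ^ (1 - δ)

/-- For `r ≥ 1`, every depth-`r` minor of every graph in the class has average degree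
`O(r ^ e)`. -/
def HasExpansion (C : GraphClass) (e : ℝ) : Prop :=
  ∃ K : ℝ, ∀ r : ℕ, 1 ≤ r → ∀ (V W : Type) [Finite V] [Finite W] (G : SimpleGraph V)
    (H : SimpleGraph W), C V G → IsDepthMinor r H G →
      2 * (H.edgeSet.ncard : ℝ) ≤ K * (r : ℝ) ^ e * (Nat.card W : ℝ)

/-- The set `A` of the problem. -/
def A : Set ℝ :=
  {c | 0 < c ∧ ∀ δ : ℝ, 0 < δ → δ ≤ 1 → ∀ C : GraphClass, Monotone C →
    HasSeparators C δ → HasExpansion C (c / δ)}

/-- vertices of the subdivided clique that really occur -/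
def Occ (t l : ℕ) : Vx → Prop
  | Vx.br i => i < t
  | Vx.pt i j k => (i < j ∧ j < t) ∧ k < l

instance (t l : ℕ) : Finite {v : Vx // Occ t l v} := by
  have hch : ∀ v : {v : Vx // Occ t l v}, ∃ w : Fin t ⊕ (Fin t × Fin t × Fin l),
      v.1 = Sum.elim (fun i : Fin t => Vx.br i)
        (fun p : Fin t × Fin t × Fin l => Vx.pt p.1 p.2.1 p.2.2) w := by
    rintro ⟨v, hv⟩
    rcases v with i | ⟨i, j, k⟩
    · exact ⟨Sum.inl ⟨i, hv⟩, rfl⟩
    · exact ⟨Sum.inr (⟨i, by have := hv.1; omega⟩, ⟨j, hv.1.2⟩, ⟨k, hv.2⟩), rfl⟩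
  choose g hg using hch
  apply Finite.of_injective g
  intro a b hab
  apply Subtype.ext
  rw [hg a, hg b, hab]

/-- the finite subdivided clique -/
def fin (t l : ℕ) : SimpleGraph {v : Vx // Occ t l v} := (sub t l).induce {v | Occ t l v}

theorem adj_of_rel {t l : ℕ} {a b : Vx} (hab : Rel t l a b) (ha : Occ t l a) (hb : Occ t l b) :
    (fin t l).Adj ⟨a, ha⟩ ⟨b, hb⟩ := by
  have hne : a ≠ b := by
    rintro rfl
    cases hab
  have h1 : (sub t l).Adj a b := by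
    simp only [sub, SimpleGraph.fromRel_adj]
    exact ⟨hne, Or.inl hab⟩
  exact h1

theorem depth_minor (t l : ℕ) (hl : 1 ≤ l) : IsDepthMinor l (⊤ : SimpleGraph (Fin t)) (fin t l) := by
  obtain ⟨B, hB⟩ : ∃ B : Fin t → Set {v : Vx // Occ t l v},
    ∀ i v, v ∈ B i ↔ (v.1 = Vx.br i ∨ ∃ j k, v.1 = Vx.pt i j k) :=
    ⟨fun i => {v | v.1 = Vx.br i ∨ ∃ j k, v.1 = Vx.pt i j k}, fun i v => Iff.rfl⟩
  refine ⟨B, ?_, ?_, ?_⟩
  · intro u v huv
    rw [Set.disjoint_left]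
    intro x hx hx'
    rw [hB] at hx hx'
    apply huv
    apply Fin.ext
    rcases hx with h1 | ⟨j, k, h1⟩ <;> rcases hx' with h2 | ⟨j', k', h2⟩ <;>
      (rw [h1] at h2; simp at h2)
    · exact h2
    · exact h2.1
  · intro u
    have hbu : (⟨Vx.br u, u.2⟩ : {v : Vx // Occ t l v}) ∈ B u := by rw [hB]; exact Or.inl rfl
    refine ⟨⟨_, hbu⟩, ?_⟩
    have key : ∀ k j (h : Occ t l (Vx.pt u j k)),
        ∃ p : ((fin t l).induce (B u)).Walk ⟨_, hbu⟩
          ⟨⟨Vx.pt u j k, h⟩, by rw [hB]; exact Or.inr ⟨j, k, rfl⟩⟩, p.length = k + 1 := by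
      intro k
      induction k with
      | zero =>
        intro j h
        have h1 : (fin t l).Adj ⟨Vx.br u, u.2⟩ ⟨Vx.pt u j 0, h⟩ :=
          adj_of_rel (Rel.first u j h.1.1 h.1.2 h.2) u.2 h
        have h2 : ((fin t l).induce (B u)).Adj ⟨_, hbu⟩
            ⟨⟨Vx.pt u j 0, h⟩, by rw [hB]; exact Or.inr ⟨j, 0, rfl⟩⟩ := h1
        exact ⟨h2.toWalk, rfl⟩
      | succ k ih =>
        intro j h
        have h' : Occ t l (Vx.pt u j k) := ⟨h.1, by have := h.2; omega⟩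
        obtain ⟨p, hp⟩ := ih j h'
        have h1 : (fin t l).Adj ⟨Vx.pt u j k, h'⟩ ⟨Vx.pt u j (k + 1), h⟩ :=
          adj_of_rel (Rel.step u j k h.1.1 h.1.2 h.2) h' h
        have h2 : ((fin t l).induce (B u)).Adj
            ⟨⟨Vx.pt u j k, h'⟩, by rw [hB]; exact Or.inr ⟨j, k, rfl⟩⟩
            ⟨⟨Vx.pt u j (k + 1), h⟩, by rw [hB]; exact Or.inr ⟨j, k + 1, rfl⟩⟩ := h1
        refine ⟨p.append h2.toWalk, ?_⟩
        rw [SimpleGraph.Walk.length_append, hp]
        rfl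
    rintro ⟨⟨y, hy⟩, hyB⟩
    have hyB' := (hB _ _).mp hyB
    rcases hyB' with h1 | ⟨j, k, h1⟩
    · simp only at h1
      subst h1
      exact ⟨SimpleGraph.Walk.nil, Nat.zero_le _⟩
    · simp only at h1
      subst h1
      obtain ⟨p, hp⟩ := key k j hy
      refine ⟨p, ?_⟩
      rw [hp]
      exact hy.2
  · have key : ∀ u v : Fin t, u < v → ∃ x ∈ B u, ∃ y ∈ B v, (fin t l).Adj x y := by
      intro u v huv
      have h1 : Occ t l (Vx.pt u v (l - 1)) := ⟨⟨huv, v.2⟩, by omega⟩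
      refine ⟨⟨_, h1⟩, (hB _ _).mpr (Or.inr ⟨_, _, rfl⟩), ⟨Vx.br v, v.2⟩,
        (hB _ _).mpr (Or.inl rfl), ?_⟩
      exact adj_of_rel (Rel.last u v (l - 1) huv v.2 (by omega)) h1 v.2
    intro u v huv
    rcases lt_or_gt_of_ne huv.ne with h | h
    · exact key u v h
    · obtain ⟨x, hx, y, hy, hxy⟩ := key v u h
      exact ⟨y, hy, x, hx, hxy.symm⟩

/-- the class of all subgraphs of the `l`-subdivisions of complete graphs on at most `l ^ a`
vertices -/
def cls (a : ℝ) : GraphClass := fun V G => ∃ l : ℕ, 1 ≤ l ∧ ∃ f : V → Vx,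
  Function.Injective f ∧ (∀ x, Occ ⌊(l : ℝ) ^ a⌋₊ l (f x)) ∧
    ∀ x y, G.Adj x y → (sub ⌊(l : ℝ) ^ a⌋₊ l).Adj (f x) (f y)

theorem cls_monotone (a : ℝ) : Monotone (cls a) := by
  rintro V W _ _ G H ⟨l, hl, f, hf, hocc, hom⟩ ⟨g, hg, hgom⟩
  exact ⟨l, hl, f ∘ g, hf.comp hg, fun x => hocc _, fun x y hxy => hom _ _ (hgom _ _ hxy)⟩

theorem cls_separators {δ : ℝ} (h0 : 0 < δ) (h1 : δ < 1) :
    HasSeparators (cls ((1 - δ) / δ)) δ := by
  refine ⟨3, ?_⟩
  rintro V _ G ⟨l, hl, f, hf, hocc, hom⟩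
  have hval : ∀ x, Valid l (f x) := by
    intro x
    have := hocc x
    revert this
    rcases f x with i | ⟨i, j, k⟩
    · intro _; trivial
    · intro h; exact ⟨h.1.1, h.2⟩
  have hbr : ∀ x i, f x = Vx.br i → i < ⌊(l : ℝ) ^ ((1 - δ) / δ)⌋₊ := by
    intro x i hx
    have := hocc x
    rw [hx] at this
    exact this
  rcases isEmpty_or_nonempty V with hV | hV
  · refine ⟨∅, ?_, ?_⟩
    · intro c
      obtain ⟨v, -⟩ := c.nonempty_supp
      exact (hV.false v.1).elim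
    · simp only [Set.ncard_empty, Nat.cast_zero]
      positivity
  have hn : 1 ≤ (Nat.card V : ℝ) := by
    have : 0 < Nat.card V := Nat.card_pos
    exact_mod_cast this
  have hn0 : (0 : ℝ) < Nat.card V := by linarith
  have hl' : (1 : ℝ) ≤ l := by exact_mod_cast hl
  have hl0 : (0 : ℝ) < l := by linarith
  have hone : (1 : ℝ) ≤ (Nat.card V : ℝ) ^ (1 - δ) := Real.one_le_rpow hn (by linarith)
  by_cases hcase : (Nat.card V : ℝ) ≤ (l : ℝ) ^ (1 / δ)
  · obtain ⟨S, hS, hcard⟩ := sep_small (t := ⌊(l : ℝ) ^ ((1 - δ) / δ)⌋₊) hl G f hf hval hom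
    refine ⟨S, hS, ?_⟩
    have h2 : (Nat.card V : ℝ) ^ δ ≤ l := by
      calc (Nat.card V : ℝ) ^ δ ≤ ((l : ℝ) ^ (1 / δ)) ^ δ :=
            Real.rpow_le_rpow hn0.le hcase h0.le
        _ = l := by
            rw [← Real.rpow_mul hl0.le, one_div_mul_cancel h0.ne', Real.rpow_one]
    have h3 : (S.ncard : ℝ) ≤ Nat.card V / l + 2 := by
      have h4 : (((S.ncard - 2) * l : ℕ) : ℝ) ≤ (Nat.card V : ℝ) := by exact_mod_cast hcard
      push_cast at h4
      have h5 : (S.ncard : ℝ) - 2 ≤ ((S.ncard - 2 : ℕ) : ℝ) := by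
        have : S.ncard ≤ (S.ncard - 2) + 2 := by omega
        have : (S.ncard : ℝ) ≤ ((S.ncard - 2 : ℕ) : ℝ) + 2 := by exact_mod_cast this
        linarith
      have h6 : ((S.ncard - 2 : ℕ) : ℝ) ≤ Nat.card V / l := by
        rw [le_div_iff₀ hl0]; exact h4
      linarith
    have h4 : (Nat.card V : ℝ) / l ≤ (Nat.card V : ℝ) ^ (1 - δ) := by
      rw [Real.rpow_sub hn0, Real.rpow_one]
      exact div_le_div_of_nonneg_left hn0.le (by positivity) h2
    linarith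
  · push Not at hcase
    obtain ⟨S, hS, hcard⟩ := sep_large G f hf hval hbr hom
    refine ⟨S, hS, ?_⟩
    have h2 : (⌊(l : ℝ) ^ ((1 - δ) / δ)⌋₊ : ℝ) ≤ (Nat.card V : ℝ) ^ (1 - δ) := by
      calc (⌊(l : ℝ) ^ ((1 - δ) / δ)⌋₊ : ℝ) ≤ (l : ℝ) ^ ((1 - δ) / δ) :=
            Nat.floor_le (by positivity)
        _ = ((l : ℝ) ^ (1 / δ)) ^ (1 - δ) := by
            rw [← Real.rpow_mul hl0.le]
            congr 1
            ring
        _ ≤ (Nat.card V : ℝ) ^ (1 - δ) :=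
            Real.rpow_le_rpow (by positivity) hcase.le (by linarith)
    have h3 : (S.ncard : ℝ) ≤ (⌊(l : ℝ) ^ ((1 - δ) / δ)⌋₊ : ℝ) + 2 := by exact_mod_cast hcard
    linarith

theorem not_expansion {a b : ℝ} (hb : 0 < b) (hab : b < a) : ¬ HasExpansion (cls a) b := by
  rintro ⟨K, hK⟩
  have hkey : ∀ l : ℕ, 1 ≤ l → (l : ℝ) ^ (a - b) ≤ |K| + 2 := by
    intro l hl
    have hl' : (1 : ℝ) ≤ l := by exact_mod_cast hl
    have hl0 : (0 : ℝ) < l := by linarith
    obtain ⟨t, ht⟩ : ∃ t, t = ⌊(l : ℝ) ^ a⌋₊ := ⟨_, rfl⟩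
    have hcls : cls a _ (fin t l) := by
      refine ⟨l, hl, Subtype.val, Subtype.val_injective, ?_, ?_⟩
      · rw [← ht]; exact fun x => x.2
      · rw [← ht]; exact fun x y hxy => hxy
    have h1 := hK l hl _ _ (fin t l) _ hcls (depth_minor t l hl)
    have h2 : ((⊤ : SimpleGraph (Fin t)).edgeSet.ncard) = t.choose 2 := by
      rw [← SimpleGraph.coe_edgeFinset, Set.ncard_coe_finset,
        SimpleGraph.card_edgeFinset_top_eq_card_choose_two, Fintype.card_fin]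
    rw [h2, Nat.card_fin] at h1
    have h3 : 2 * ((t.choose 2 : ℕ) : ℝ) = t * (t - 1) := by
      rw [Nat.cast_choose_two]; ring
    rw [h3] at h1
    have hf : (l : ℝ) ^ a < t + 1 := by rw [ht]; exact Nat.lt_floor_add_one _
    have hpb : (1 : ℝ) ≤ (l : ℝ) ^ b := Real.one_le_rpow hl' hb.le
    have hKb : K * (l : ℝ) ^ b ≤ |K| * (l : ℝ) ^ b :=
      mul_le_mul_of_nonneg_right (le_abs_self K) (by positivity)
    have h4 : (t : ℝ) - 1 ≤ |K| * (l : ℝ) ^ b := by
      rcases Nat.eq_zero_or_pos t with h | h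
      · rw [h]
        have : 0 ≤ |K| * (l : ℝ) ^ b := by positivity
        simp only [Nat.cast_zero]
        linarith
      · have ht0 : (0 : ℝ) < t := by exact_mod_cast h
        have : (t : ℝ) * (t - 1) ≤ t * (K * (l : ℝ) ^ b) := by linarith
        have := le_of_mul_le_mul_left this ht0
        linarith
    have h5 : (l : ℝ) ^ a ≤ (|K| + 2) * (l : ℝ) ^ b := by nlinarith
    rw [Real.rpow_sub hl0, div_le_iff₀ (by positivity)]
    exact h5
  have htend : Tendsto (fun l : ℕ => (l : ℝ) ^ (a - b)) atTop atTop :=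
    (tendsto_rpow_atTop (by linarith)).comp tendsto_natCast_atTop_atTop
  obtain ⟨l, hl, hl2⟩ := ((htend.eventually_gt_atTop (|K| + 2)).and
    (eventually_ge_atTop 1)).exists
  exact absurd (hkey l hl2) (not_le.mpr hl)

/-- **Main result.** Every element of the set `A` is at least `1`; together with the known
inclusion `(1, ∞) ⊆ A` this gives `inf A = 1`. -/
theorem result : ∀ c ∈ A, 1 ≤ c := by
  rintro c ⟨hc0, hc⟩
  by_contra hlt
  push Not at hlt
  obtain ⟨δ, hδ⟩ : ∃ δ : ℝ, δ = (1 - c) / 2 := ⟨_, rfl⟩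
  have h0 : 0 < δ := by rw [hδ]; linarith
  have h1 : δ < 1 := by rw [hδ]; linarith
  have h2 := hc δ h0 h1.le (cls ((1 - δ) / δ)) (cls_monotone _) (cls_separators h0 h1)
  refine not_expansion (by positivity) ?_ h2
  rw [div_lt_div_iff_of_pos_right h0]
  rw [hδ]; linarith

end Pool.Agent.Results.MP_2f3b43_co.ExponentOne
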